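import Mathlib
import Pool.Agent.Work.MP_b25393_ag.HF.Main

set_option autoImplicit false
open scoped LinearAlgebra.Projectivization Pointwise
open MeasureTheory Filter Topology

namespace Pool.Agent.Results.MP_b25393_ag.HeightFamilies

/-- Points of the rational projective plane; lines are given by the same data (their coefficients
up to a scalar). -/
abbrev Plane := ℙ ℚ (Fin 3 → ℚ)

/-- The point `p` lies on the line `L`. -/
def OnLine (p L : Plane) : Prop := ∑ i, p.rep i * L.rep i = 0

/-- The number of lines of `A` through the point `p`. -/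
noncomputable def multiplicity (A : Finset Plane) (p : Plane) : ℕ :=
  {L : Plane | L ∈ A ∧ OnLine p L}.ncard

/-- The number `t_m` of points of the plane lying on exactly `m` lines of `A`. -/
noncomputable def t (A : Finset Plane) (m : ℕ) : ℕ :=
  {p : Plane | multiplicity A p = m}.ncard

/-- At least three lines, no point on all of them and no point on all of them but one. -/
def IsArrangement (A : Finset Plane) : Prop :=
  3 ≤ A.card ∧ ∀ p : Plane, multiplicity A p ≠ A.card ∧ multiplicity A p ≠ A.card - 1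

/-- The first Chern number `9 - 5d + Σ (3m-4) t_m`. -/
noncomputable def c1sq (A : Finset Plane) : ℝ :=
  9 - 5 * (A.card : ℝ) + ∑ m ∈ Finset.Icc 2 A.card, (3 * (m : ℝ) - 4) * (t A m : ℝ)

/-- The second Chern number `3 - 2d + Σ (m-1) t_m`. -/
noncomputable def c2 (A : Finset Plane) : ℝ :=
  3 - 2 * (A.card : ℝ) + ∑ m ∈ Finset.Icc 2 A.card, ((m : ℝ) - 1) * (t A m : ℝ)

/-- The only common divisors of the three integers are `1` and `-1`. -/
def IsPrimitive (z : Fin 3 → ℤ) : Prop := ∀ d : ℤ, (∀ i, d ∣ z i) → IsUnit d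

/-- The lines of the rational projective plane which have a primitive integral coefficient vector
in the set `C`. -/
def linesIn (C : Set (Fin 3 → ℝ)) : Set Plane :=
  {L | ∃ z : Fin 3 → ℤ, IsPrimitive z ∧ (fun i => (z i : ℝ)) ∈ C ∧
    ∃ h : (fun i => (z i : ℚ)) ≠ 0, L = Projectivization.mk ℚ (fun i => (z i : ℚ)) h}

/-- A symmetric convex body in `ℝ³`: compact, convex, symmetric, with nonempty interior. -/
structure IsBody (K : Set (Fin 3 → ℝ)) : Prop where
  isCompact : IsCompact K
  convex : Convex ℝ K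
  symmetric : ∀ x ∈ K, -x ∈ K
  interior : (interior K).Nonempty

/-- The probability that `u + v` lies in `K` for independent uniformly distributed `u`, `v` in `K`. -/
noncomputable def q (K : Set (Fin 3 → ℝ)) : ℝ :=
  (volume {z : (Fin 3 → ℝ) × (Fin 3 → ℝ) | z.1 ∈ K ∧ z.2 ∈ K ∧ z.1 + z.2 ∈ K}).toReal /
    (volume K).toReal ^ 2

/-- The Euclidean unit ball. -/
def unitBall : Set (Fin 3 → ℝ) := {x | x 0 ^ 2 + x 1 ^ 2 + x 2 ^ 2 ≤ 1}

section aux

open Pool.Agent.Work.MP_b25393_ag
open scoped Classical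

lemma multiplicity_eq (A : Finset Plane) (p : Plane) : multiplicity A p = Str.mult A p := by
  unfold multiplicity Str.mult
  rw [← Set.ncard_coe_finset]
  congr 1
  ext L
  rw [Finset.coe_filter]
  rfl

lemma isArrangement_iff (A : Finset Plane) : IsArrangement A ↔ Str.nondeg A := by
  unfold IsArrangement Str.nondeg
  simp only [multiplicity_eq]
  refine and_congr_right fun h3 => forall_congr' fun p => ?_
  have := Str.mult_le_card A p
  omega

lemma slope_eq (A : Finset Plane) : c1sq A / c2 A = Str.slope A := by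
  rw [← Str.slope_eq]
  unfold c1sq c2 t
  simp only [multiplicity_eq]

lemma linesIn_eq (C : Set (Fin 3 → ℝ)) : linesIn C = HF.lns C := rfl

lemma body_iff (K : Set (Fin 3 → ℝ)) : IsBody K ↔ HF.Body K :=
  ⟨fun h => ⟨h.2, h.1, h.3, h.4⟩, fun h => ⟨h.2, h.1, h.3, h.4⟩⟩

lemma q_eq (K : Set (Fin 3 → ℝ)) : q K = HF.qq K := rfl

lemma finite_lns (C : Set (Fin 3 → ℝ)) (h : (HF.S1 C).Finite) : (HF.lns C).Finite := by
  classical
  let g : (Fin 3 → ℤ) → Set Plane := fun v =>
    {L | ∃ h : HF.toQ v ≠ 0, L = Projectivization.mk ℚ (HF.toQ v) h}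
  have hs : HF.lns C ⊆ ⋃ v ∈ HF.S1 C, g v := by
    rintro L ⟨v, hv, hC, h0, hL⟩
    exact Set.mem_biUnion (show v ∈ HF.S1 C from ⟨hv, hC⟩) ⟨h0, hL⟩
  refine Set.Finite.subset (h.biUnion fun v _ => ?_) hs
  refine Set.Subsingleton.finite ?_
  rintro L ⟨h1, h1'⟩ L' ⟨h2, h2'⟩
  rw [h1', h2']

end aux

/-- Let `K` be a symmetric convex body in `ℝ³` and for `R > 0` let `A_R` be the finite set of all
rational lines with a primitive integral coefficient vector in `R • K`. For large `R` it is an
arrangement, and for `R → ∞` its Chern slope tends to `(6 - 2q)/(3 - 2q)`, where `q = q(K)` is the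
probability that the sum of two random points of `K` lies in `K`. This limit is at most `27/11`,
with equality if and only if `K` is an ellipsoid. -/
theorem result : ∀ K : Set (Fin 3 → ℝ), IsBody K →
    ∃ A : ℝ → Finset Plane, (∀ R : ℝ, (A R : Set Plane) = linesIn (R • K)) ∧
      (∀ᶠ R : ℝ in atTop, IsArrangement (A R)) ∧
      Tendsto (fun R => c1sq (A R) / c2 (A R)) atTop (𝓝 ((6 - 2 * q K) / (3 - 2 * q K))) ∧
      (6 - 2 * q K) / (3 - 2 * q K) ≤ 27 / 11 ∧
      ((6 - 2 * q K) / (3 - 2 * q K) = 27 / 11 ↔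
        ∃ T : (Fin 3 → ℝ) ≃ₗ[ℝ] (Fin 3 → ℝ), K = T '' unitBall) := by
  intro K hK
  have hB : Pool.Agent.Work.MP_b25393_ag.HF.Body K := (body_iff K).mp hK
  have hfin : ∀ R : ℝ, (linesIn (R • K)).Finite := fun R =>
    finite_lns _ ((Pool.Agent.Work.MP_b25393_ag.HF.all_D5 K hB).1 R)
  refine ⟨fun R => (hfin R).toFinset, fun R => (hfin R).coe_toFinset, ?_, ?_, ?_, ?_⟩
  · filter_upwards [Pool.Agent.Work.MP_b25393_ag.HF.all_A4 K hB] with R hR
    rw [isArrangement_iff]
    refine hR _ fun L => ?_
    rw [Set.Finite.mem_toFinset]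
    rfl
  · simp only [slope_eq, q_eq]
    refine Pool.Agent.Work.MP_b25393_ag.HF.all_D7 K hB _ fun R L => ?_
    rw [Set.Finite.mem_toFinset]
    rfl
  · have h := (Pool.Agent.Work.MP_b25393_ag.HF.all_B4).1 K hB
    rw [← q_eq] at h
    rw [div_le_div_iff₀ (by linarith) (by norm_num)]
    linarith
  · have h := (Pool.Agent.Work.MP_b25393_ag.HF.all_B4).1 K hB
    have h2 := Pool.Agent.Work.MP_b25393_ag.HF.all_Q9 K hB
    rw [← q_eq] at h h2
    rw [div_eq_div_iff (by linarith) (by norm_num)]
    refine Iff.trans ?_ h2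
    constructor
    · intro h3
      linarith
    · intro h3
      rw [h3]
      norm_num

end Pool.Agent.Results.MP_b25393_ag.HeightFamilies
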