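import Mathlib
import Pool.Agent.Work.MP_b25393_ag.Str.Main

set_option autoImplicit false
open scoped LinearAlgebra.Projectivization

namespace Pool.Agent.Results.MP_b25393_ag.Interval

universe u

/-- Points of the projective plane over `F`; lines are given by the same data (their coefficients
up to a scalar). -/
abbrev Plane (F : Type u) [Field F] := ℙ F (Fin 3 → F)

/-- The point `p` lies on the line `L`. -/
def OnLine {F : Type u} [Field F] (p L : Plane F) : Prop := ∑ i, p.rep i * L.rep i = 0

/-- The number of lines of `A` through the point `p`. -/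
noncomputable def multiplicity {F : Type u} [Field F] (A : Finset (Plane F)) (p : Plane F) : ℕ :=
  {L : Plane F | L ∈ A ∧ OnLine p L}.ncard

/-- The number `t_m` of points of the plane lying on exactly `m` lines of `A`. -/
noncomputable def t {F : Type u} [Field F] (A : Finset (Plane F)) (m : ℕ) : ℕ :=
  {p : Plane F | multiplicity A p = m}.ncard

/-- At least three lines, no point on all of them and no point on all of them but one. -/
def IsArrangement {F : Type u} [Field F] (A : Finset (Plane F)) : Prop :=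
  3 ≤ A.card ∧ ∀ p : Plane F, multiplicity A p ≠ A.card ∧ multiplicity A p ≠ A.card - 1

/-- The first Chern number `9 - 5d + Σ (3m-4) t_m`. -/
noncomputable def c1sq {F : Type u} [Field F] (A : Finset (Plane F)) : ℝ :=
  9 - 5 * (A.card : ℝ) + ∑ m ∈ Finset.Icc 2 A.card, (3 * (m : ℝ) - 4) * (t A m : ℝ)

/-- The second Chern number `3 - 2d + Σ (m-1) t_m`. -/
noncomputable def c2 {F : Type u} [Field F] (A : Finset (Plane F)) : ℝ :=
  3 - 2 * (A.card : ℝ) + ∑ m ∈ Finset.Icc 2 A.card, ((m : ℝ) - 1) * (t A m : ℝ)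

/-- The set of Chern slopes of line arrangements over `F`. -/
def chernSlopes (F : Type u) [Field F] : Set ℝ :=
  {s : ℝ | ∃ A : Finset (Plane F), IsArrangement A ∧ s = c1sq A / c2 A}

section aux

open Pool.Agent.Work.MP_b25393_ag
open scoped Classical

variable {F : Type u} [Field F]

lemma multiplicity_eq (A : Finset (Plane F)) (p : Plane F) : multiplicity A p = Str.mult A p := by
  unfold multiplicity Str.mult
  rw [← Set.ncard_coe_finset]
  congr 1
  ext L
  rw [Finset.coe_filter]
  rfl

lemma isArrangement_iff (A : Finset (Plane F)) : IsArrangement A ↔ Str.nondeg A := by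
  unfold IsArrangement Str.nondeg
  simp only [multiplicity_eq]
  refine and_congr_right fun h3 => forall_congr' fun p => ?_
  have := Str.mult_le_card A p
  omega

lemma slope_eq (A : Finset (Plane F)) : c1sq A / c2 A = Str.slope A := by
  rw [← Str.slope_eq]
  unfold c1sq c2 t
  simp only [multiplicity_eq]

lemma chernSlopes_eq : chernSlopes F = Str.slopes F := by
  ext s
  unfold chernSlopes Str.slopes
  simp only [Set.mem_ofPred_eq, isArrangement_iff, slope_eq]

end aux

/-- (1) Over every infinite field the accumulation points of the Chern slopes form a closed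
interval `[2, s]`, whose right end `s ≤ 3` is the upper limit of the slopes as the number of
lines tends to infinity. (2) The interval `[2, 5/2]` consists of accumulation points over `ℚ`
if and only if `5/2` is one, and if and only if there are arrangements of arbitrarily many
rational lines with slope arbitrarily close to `5/2` or larger. -/
theorem result :
    (∀ (F : Type u) [Field F] [Infinite F], ∃ s : ℝ, 2 ≤ s ∧ s ≤ 3 ∧
      derivedSet (chernSlopes F) = Set.Icc 2 s ∧
      ∀ c : ℝ, c ≤ s ↔ ∀ ε : ℝ, 0 < ε → ∀ N : ℕ, ∃ A : Finset (Plane F),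
        IsArrangement A ∧ N ≤ A.card ∧ c - ε ≤ c1sq A / c2 A) ∧
    (Set.Icc (2 : ℝ) (5 / 2) ⊆ derivedSet (chernSlopes ℚ) ↔
      (5 / 2 : ℝ) ∈ derivedSet (chernSlopes ℚ)) ∧
    (Set.Icc (2 : ℝ) (5 / 2) ⊆ derivedSet (chernSlopes ℚ) ↔
      ∀ ε : ℝ, 0 < ε → ∀ N : ℕ, ∃ A : Finset (Plane ℚ),
        IsArrangement A ∧ N ≤ A.card ∧ 5 / 2 - ε ≤ c1sq A / c2 A) := by
  have main : ∀ (F : Type u) [Field F] [Infinite F], ∃ s : ℝ, 2 ≤ s ∧ s ≤ 3 ∧
      derivedSet (chernSlopes F) = Set.Icc 2 s ∧
      ∀ c : ℝ, c ≤ s ↔ ∀ ε : ℝ, 0 < ε → ∀ N : ℕ, ∃ A : Finset (Plane F),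
        IsArrangement A ∧ N ≤ A.card ∧ c - ε ≤ c1sq A / c2 A := by
    intro F _ _
    obtain ⟨s, h1, h2, h3, h4⟩ := Pool.Agent.Work.MP_b25393_ag.Str.interval F
    refine ⟨s, h1, h2, by rw [chernSlopes_eq, h3], fun c => ?_⟩
    rw [h4 c]
    simp only [isArrangement_iff, slope_eq]
  obtain ⟨s, h1, h2, h3, h4⟩ := Pool.Agent.Work.MP_b25393_ag.Str.interval ℚ
  have h3' : derivedSet (chernSlopes ℚ) = Set.Icc 2 s := by rw [chernSlopes_eq, h3]
  refine ⟨main, ?_, ?_⟩
  · rw [h3', Set.Icc_subset_Icc_iff (by norm_num)]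
    simp only [le_refl, true_and, Set.mem_Icc]
    constructor
    · intro h
      exact ⟨by norm_num, h⟩
    · exact fun h => h.2
  · rw [h3', Set.Icc_subset_Icc_iff (by norm_num)]
    have h6 := h4 (5 / 2)
    simp only [le_refl, true_and]
    rw [h6]
    simp only [isArrangement_iff, slope_eq]

end Pool.Agent.Results.MP_b25393_ag.Interval
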