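import Mathlib
import Pool.Agent.Work.MP_b25393_ag.HX.Main

set_option autoImplicit false
open scoped LinearAlgebra.Projectivization

namespace Pool.Agent.Results.MP_b25393_ag.SlopesTo24565

open Pool.Agent.Work.MP_b25393_ag in
open scoped Classical in
lemma mult_eq (A : Finset (ℙ ℚ (Fin 3 → ℚ))) (p : ℙ ℚ (Fin 3 → ℚ)) :
    (A.filter (fun L => ∑ i, p.rep i * L.rep i = 0)).card = Str.mult A p := by
  unfold Str.mult
  congr 1
  ext L
  simp only [Finset.mem_filter, Str.inc]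

open Pool.Agent.Work.MP_b25393_ag in
lemma slopes_subset : Str.slopes ℚ = {s : ℝ | ∃ A : Finset (ℙ ℚ (Fin 3 → ℚ)),
      3 ≤ A.card ∧
      (¬ ∃ p : ℙ ℚ (Fin 3 → ℚ),
          (A.filter (fun L => ∑ i, p.rep i * L.rep i = 0)).card = A.card) ∧
      (¬ ∃ p : ℙ ℚ (Fin 3 → ℚ),
          (A.filter (fun L => ∑ i, p.rep i * L.rep i = 0)).card = A.card - 1) ∧
      s = ((9 : ℝ) - 5 * (A.card : ℝ)
            + ∑ k ∈ Finset.Icc 2 A.card, (3 * (k : ℝ) - 4) *
                (({p : ℙ ℚ (Fin 3 → ℚ) |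
                    (A.filter (fun L => ∑ i, p.rep i * L.rep i = 0)).card = k}.ncard : ℕ) : ℝ))
          / ((3 : ℝ) - 2 * (A.card : ℝ)
            + ∑ k ∈ Finset.Icc 2 A.card, ((k : ℝ) - 1) *
                (({p : ℙ ℚ (Fin 3 → ℚ) |
                    (A.filter (fun L => ∑ i, p.rep i * L.rep i = 0)).card = k}.ncard : ℕ) : ℝ))} := by
  ext s
  simp only [Set.mem_ofPred_eq]
  refine exists_congr fun A => ?_
  have hm : ∀ p : ℙ ℚ (Fin 3 → ℚ),
      (A.filter (fun L => ∑ i, p.rep i * L.rep i = 0)).card = Str.mult A p := fun p => by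
    rw [← mult_eq]
  simp only [hm]
  rw [← Str.slope_eq]
  unfold Str.nondeg
  constructor
  · rintro ⟨⟨h3, h⟩, hs⟩
    refine ⟨h3, ?_, ?_, hs⟩
    · rintro ⟨p, hp⟩
      have := h p
      omega
    · rintro ⟨p, hp⟩
      have := h p
      omega
  · rintro ⟨h3, h1, h2, hs⟩
    refine ⟨⟨h3, fun p => ?_⟩, hs⟩
    have h4 := Str.mult_le_card A p
    have h5 : Str.mult A p ≠ A.card := fun h => h1 ⟨p, h⟩
    have h6 : Str.mult A p ≠ A.card - 1 := fun h => h2 ⟨p, h⟩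
    omega

/-- Every real number in `[2, 2.4565]` is an accumulation point of the set of Chern slopes
(9−5d+Σ(3k−4)t_k)/(3−2d+Σ(k−1)t_k) of arrangements of d≥3 rational lines, with no point on all
d or d−1 lines. -/
theorem result :
    Set.Icc (2 : ℝ) (4913 / 2000) ⊆ derivedSet {s : ℝ | ∃ A : Finset (ℙ ℚ (Fin 3 → ℚ)),
      3 ≤ A.card ∧
      (¬ ∃ p : ℙ ℚ (Fin 3 → ℚ),
          (A.filter (fun L => ∑ i, p.rep i * L.rep i = 0)).card = A.card) ∧
      (¬ ∃ p : ℙ ℚ (Fin 3 → ℚ),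
          (A.filter (fun L => ∑ i, p.rep i * L.rep i = 0)).card = A.card - 1) ∧
      s = ((9 : ℝ) - 5 * (A.card : ℝ)
            + ∑ k ∈ Finset.Icc 2 A.card, (3 * (k : ℝ) - 4) *
                (({p : ℙ ℚ (Fin 3 → ℚ) |
                    (A.filter (fun L => ∑ i, p.rep i * L.rep i = 0)).card = k}.ncard : ℕ) : ℝ))
          / ((3 : ℝ) - 2 * (A.card : ℝ)
            + ∑ k ∈ Finset.Icc 2 A.card, ((k : ℝ) - 1) *
                (({p : ℙ ℚ (Fin 3 → ℚ) |
                    (A.filter (fun L => ∑ i, p.rep i * L.rep i = 0)).card = k}.ncard : ℕ) : ℝ))} := by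
  rw [← slopes_subset]
  obtain ⟨s, -, -, h3, h4⟩ := Pool.Agent.Work.MP_b25393_ag.Str.interval ℚ
  rw [h3]
  refine Set.Icc_subset_Icc_right ((h4 _).2 fun ε hε N => ?_)
  obtain ⟨A, hA, hN, h⟩ := Pool.Agent.Work.MP_b25393_ag.HX.all_X11 N
  exact ⟨A, hA, hN, by linarith⟩

end Pool.Agent.Results.MP_b25393_ag.SlopesTo24565
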